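import Pool.Agent.Helper62.EC.Cls

/-!
# From hypersurfaces to closed subschemes
-/

set_option autoImplicit false

namespace Pool.Agent.Helper67.SO

open CategoryTheory AlgebraicGeometry
open Pool.Agent.Y116.UV (Sch aff ft_aff)
open Pool.Agent.Helper62.EC

variable {R : Type} [CommRing R] {sep : Prop} {P : Sch R → Prop} (hP : Cls sep P)

include hP

section

variable {A : Type} [CommRing A] [Algebra R A] [Algebra.FiniteType R A]

lemma of_zero (h : ∀ w : A, P (aff R (A ⧸ Ideal.span {w}))) : P (aff R A) := by
  have h1 := h 0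
  have e : (A ⧸ Ideal.span {(0 : A)}) ≃ₐ[R] A :=
    (Ideal.quotientEquivAlgOfEq R (by rw [Ideal.span_singleton_eq_bot])).trans
      (AlgEquiv.quotientBot R A)
  exact iso_alg hP e h1

/-- From the hypersurfaces of `Spec A` to the hypersurfaces of a hypersurface. -/
lemma hyp_step (h : ∀ w : A, P (aff R (A ⧸ Ideal.span {w}))) (g : A)
    (w : A ⧸ Ideal.span {g}) : P (aff R ((A ⧸ Ideal.span {g}) ⧸ Ideal.span {w})) := by
  obtain ⟨w, rfl⟩ := Ideal.Quotient.mk_surjective w
  have h1 : P (aff R A) := of_zero hP h
  let S := Localization.Away w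
  have hSft : Algebra.FiniteType R S := Algebra.FiniteType.trans (S := A) inferInstance
    inferInstance
  have h2 : P (aff R S) := ring_open hP w (h w) h1
  have h3 : P (aff R (Localization.Away (w * g))) := ring_open hP (w * g) (h _) h1
  have h3ft : Algebra.FiniteType R (Localization.Away (w * g)) :=
    Algebra.FiniteType.trans (S := A) inferInstance inferInstance
  have h4 : P (aff R (Localization.Away (algebraMap A S g))) := by
    let e : Localization.Away (w * g) ≃ₐ[A] Localization.Away (algebraMap A S g) :=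
      IsLocalization.algEquiv (Submonoid.powers (w * g)) _ _
    exact iso_alg hP (e.restrictScalars R) h3
  have h5 : P (aff R (S ⧸ Ideal.span {algebraMap A S g})) := ring_closed hP _ h2 h4
  have h6 : P (aff R (Localization.Away (Ideal.Quotient.mk (Ideal.span {g}) w))) := by
    have hI : (Ideal.span {g}).map (algebraMap A S) = Ideal.span {algebraMap A S g} := by
      rw [Ideal.map_span, Set.image_singleton]
    have hM : Algebra.algebraMapSubmonoid (A ⧸ Ideal.span {g}) (Submonoid.powers w) =
        Submonoid.powers (Ideal.Quotient.mk (Ideal.span {g}) w) := by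
      rw [Algebra.algebraMapSubmonoid_powers]
      rfl
    have h7 : IsLocalization.Away (Ideal.Quotient.mk (Ideal.span {g}) w)
        (S ⧸ (Ideal.span {g}).map (algebraMap A S)) := by
      have h8 : IsLocalization (Algebra.algebraMapSubmonoid (A ⧸ Ideal.span {g})
        (Submonoid.powers w)) (S ⧸ (Ideal.span {g}).map (algebraMap A S)) := inferInstance
      rwa [hM] at h8
    let e : (S ⧸ (Ideal.span {g}).map (algebraMap A S)) ≃ₐ[A ⧸ Ideal.span {g}]
        Localization.Away (Ideal.Quotient.mk (Ideal.span {g}) w) :=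
      IsLocalization.algEquiv (Submonoid.powers (Ideal.Quotient.mk (Ideal.span {g}) w)) _ _
    rw [← hI] at h5
    refine iso_alg hP (AlgEquiv.ofRingEquiv (f := e.toRingEquiv) ?_) h5
    intro r
    have h9 : algebraMap R (S ⧸ (Ideal.span {g}).map (algebraMap A S)) r =
        algebraMap (A ⧸ Ideal.span {g}) _ (algebraMap R (A ⧸ Ideal.span {g}) r) := rfl
    change e (algebraMap R _ r) = _
    rw [h9, e.commutes, ← IsScalarTower.algebraMap_apply]
  exact ring_closed hP _ (h g) h6

/-- quotients of quotients -/
lemma mk_quot (I : Ideal A) (a : A)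
    (h : P (aff R ((A ⧸ I) ⧸ Ideal.span {Ideal.Quotient.mk I a}))) :
    P (aff R (A ⧸ (I ⊔ Ideal.span {a}))) := by
  have h2 : Ideal.map (Ideal.Quotient.mkₐ R I) (Ideal.span {a}) =
      Ideal.span {Ideal.Quotient.mk I a} := by
    rw [Ideal.map_span, Set.image_singleton]
    rfl
  rw [← h2] at h
  exact iso_alg hP (DoubleQuot.quotQuotEquivQuotSupₐ R I (Ideal.span {a})) h

/-- **From hypersurfaces to closed subschemes.** -/
theorem of_hyp [IsNoetherianRing R] (h : ∀ w : A, P (aff R (A ⧸ Ideal.span {w}))) (I : Ideal A) :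
    P (aff R (A ⧸ I)) := by
  have hN : IsNoetherianRing A := Algebra.FiniteType.isNoetherianRing R A
  obtain ⟨s, hs⟩ := (isNoetherianRing_iff_ideal_fg A).1 hN I
  classical
  have key : ∀ (s : Finset A) (w : A),
      P (aff R (A ⧸ (Ideal.span (s : Set A) ⊔ Ideal.span {w}))) := by
    intro s
    induction s using Finset.induction with
    | empty =>
      intro w
      have h1 : Ideal.span ((∅ : Finset A) : Set A) ⊔ Ideal.span {w} = Ideal.span {w} := by
        rw [Finset.coe_empty, Ideal.span_empty, bot_sup_eq]
      rw [h1]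
      exact h w
    | insert g s hg ih =>
      intro w
      let J := Ideal.span (s : Set A)
      have h1 : ∀ w : A ⧸ J, P (aff R ((A ⧸ J) ⧸ Ideal.span {w})) := by
        intro w
        obtain ⟨w, rfl⟩ := Ideal.Quotient.mk_surjective w
        exact quot_mk hP J w (ih w)
      have h2 := hyp_step hP h1 (Ideal.Quotient.mk J g) (Ideal.Quotient.mk _
        (Ideal.Quotient.mk J w))
      have h3 := mk_quot hP (A := A ⧸ J) _ _ h2
      have h4 : Ideal.span {Ideal.Quotient.mk J g} ⊔ Ideal.span {Ideal.Quotient.mk J w} =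
          Ideal.map (Ideal.Quotient.mkₐ R J) (Ideal.span {g} ⊔ Ideal.span {w}) := by
        rw [Ideal.map_sup, Ideal.map_span, Ideal.map_span, Set.image_singleton,
          Set.image_singleton]
        rfl
      rw [h4] at h3
      have h5 := iso_alg hP (DoubleQuot.quotQuotEquivQuotSupₐ R J (Ideal.span {g} ⊔
        Ideal.span {w})) h3
      have h6 : J ⊔ (Ideal.span {g} ⊔ Ideal.span {w}) =
          Ideal.span ((insert g s : Finset A) : Set A) ⊔ Ideal.span {w} := by
        rw [Finset.coe_insert, Ideal.span_insert, ← sup_assoc, sup_comm (Ideal.span {g})]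
      rwa [h6] at h5
  have h1 := key s 0
  rw [Ideal.span_singleton_eq_bot.2 rfl, sup_bot_eq] at h1
  have h2 : Ideal.span (s : Set A) = I := hs
  rwa [h2] at h1

end

end Pool.Agent.Helper67.SO
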