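import Pool.Graph.R_pool_sql_team_seeded_3997aac3.Q27.SO.Bnd
import Pool.Agent.Helper62.DB.Two0

/-!
# The order of the zeta function at one integer
-/

set_option autoImplicit false

namespace Pool.Agent.Helper67.SO

open CategoryTheory AlgebraicGeometry
open Pool.Agent.Y116.UV Q54.CU Q54.ZE Pool.Agent.Q27.SO
open Pool.Agent.Helper62.EC (Cls)

/-- The spaces `C n i X` for the fixed integer `n` have finite dimension, almost all of them vanish,
and the zeta function of `X` has a meromorphic continuation to the plane with the order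
`∑ (-1)^(i+1) dim C n i X` at `n`. -/
def At (C : ℤ → ℤ → Sch ℤ → ModuleCat.{0} ℚ) (n : ℤ) (X : Sch ℤ) : Prop :=
  (FinQ fun i => C n i X) ∧ ∃ e : ℤ → ℤ, Ord (nrm X.left) e ∧ e n = -chi fun i => C n i X

variable {C : ℤ → ℤ → Sch ℤ → ModuleCat.{0} ℚ}

lemma at_of_soule {X : Sch ℤ} (h : Soule C X) (n : ℤ) : At C n X :=
  ⟨h.1 n, _, h.2, rfl⟩

lemma at_iso (hC : IsChow C) (n : ℤ) {X Y : Sch ℤ} (hX : FT True X) (e : Nonempty (X ≅ Y))
    (h : At C n X) : At C n Y := by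
  obtain ⟨h1, d, h2, h3⟩ := h
  refine ⟨(hC.iso hX e n).fin h1, d, ?_, ?_⟩
  · obtain ⟨e'⟩ := e
    exact ord_iso (ft_false hX) e' h2
  · rw [h3, (hC.iso hX e n).chi]

/-- The formula at one integer and decompositions. -/
theorem cls_at (hC : IsChow C) (n : ℤ) : Cls True (At C n) where
  iso hX e h := at_iso hC n hX e h
  total i j hX ht hZ hU := by
    obtain ⟨σ, h⟩ := triple_split (ft_false hX) ht
    obtain ⟨hZ1, d, hZ2, hZ3⟩ := hZ
    obtain ⟨hU1, d', hU2, hU3⟩ := hU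
    refine ⟨((hC.localization i j hX ht n).mid hZ1 hU1).1, _, split_all h hZ2 hU2, ?_⟩
    rw [((hC.localization i j hX ht n).mid hZ1 hU1).2, hZ3, hU3]
    ring
  opened i j hX ht hZ hX' := by
    obtain ⟨σ, h⟩ := triple_split (ft_false hX) ht
    obtain ⟨hZ1, d, hZ2, hZ3⟩ := hZ
    obtain ⟨hX1, d', hX2, hX3⟩ := hX'
    refine ⟨((hC.localization i j hX ht n).right hZ1 hX1).1, _, split_right h hX2 hZ2, ?_⟩
    have h9 := ((hC.localization i j hX ht n).right hZ1 hX1).2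
    change d' n - d n = _
    linarith
  closed i j hX ht hX' hU := by
    obtain ⟨σ, h⟩ := triple_split (ft_false hX) ht
    obtain ⟨hX1, d, hX2, hX3⟩ := hX'
    obtain ⟨hU1, d', hU2, hU3⟩ := hU
    refine ⟨((hC.localization i j hX ht n).left hX1 hU1).1, _, split_left h hX2 hU2, ?_⟩
    have h9 := ((hC.localization i j hX ht n).left hX1 hU1).2
    change d n - d' n = _
    linarith

lemma at_bundle (hC : IsChow C) {A : Type} [CommRing A] [Algebra ℤ A]
    [Algebra.FiniteType ℤ A] {m : ℕ} (f : Fin m → A) {U : Sch ℤ} (j : U ⟶ aff ℤ A)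
    (hj : IsOpenImmersion j.left)
    (hr : Set.range j.left = {x : PrimeSpectrum A | ∃ l, f l ∉ x.asIdeal}) (n : ℤ) :
    At C n U ↔ At C (n + (m - 1 : ℕ)) (aff ℤ (Jou f)) := by
  have := ft_jou f
  have : JacobsonSpace (aff ℤ A).left := jacobson_ft (ft_aff False)
  have hb := hC.bundle A m f U ⟨j, hj, hr⟩ n
  obtain ⟨σ, h1, h2⟩ := exists_good2 (neS_subset f) (subset_rfl (a := maxS (Jou f)))
  constructor
  · rintro ⟨h3, d, h4, h5⟩
    rw [ord_opn f j (pres_open j.left) hr] at h4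
    refine ⟨hb.fin h3, _, ord_aff _ |>.2 (ord_shift h1 h2 (m - 1) (co_jou f) h4), ?_⟩
    rw [add_sub_cancel_right, h5, hb.chi]
    rfl
  · rintro ⟨h3, d, h4, h5⟩
    rw [ord_aff] at h4
    refine ⟨hb.symm.fin h3, _, (ord_opn f j (pres_open j.left) hr).2
      (ord_unshift h1 h2 (m - 1) (co_jou f) h4), ?_⟩
    rw [h5, hb.chi]
    rfl

/-- The product with the affine line. -/
theorem at_line (hC : IsChow C) (A : Type) [CommRing A] [Algebra ℤ A] [Algebra.FiniteType ℤ A]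
    (n : ℤ) : At C (n + 1) (aff ℤ (MvPolynomial (Fin 1) A)) ↔ At C n (aff ℤ A) := by
  have hr : Set.range (𝟙 (aff ℤ A) : aff ℤ A ⟶ aff ℤ A).left =
      {x : PrimeSpectrum A | ∃ l, f1 A 1 l ∉ x.asIdeal} := by
    have h1 : Set.range (𝟙 (aff ℤ A) : aff ℤ A ⟶ aff ℤ A).left = Set.univ := Set.range_id
    have h2 : {x : PrimeSpectrum A | ∃ l, f1 A 1 l ∉ x.asIdeal} = Set.univ := by
      rw [Set.eq_univ_iff_forall]
      intro x
      exact ⟨0, fun h => x.isPrime.ne_top ((Ideal.eq_top_iff_one _).mpr h)⟩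
    exact h1.trans h2.symm
  have h := at_bundle hC (f1 A 1) (𝟙 (aff ℤ A))
    (inferInstance : IsOpenImmersion (𝟙 (aff ℤ A).left)) hr n
  have hft := ft_jou (f1 A 1)
  have e : Jou (f1 A 1) ≃ₐ[ℤ] MvPolynomial (Fin 1) A :=
    AlgEquiv.ofRingEquiv (f := (jouOne A 1).toRingEquiv) (by
      intro r
      rw [eq_intCast, eq_intCast, map_intCast])
  rw [h]
  exact ⟨fun h => Pool.Agent.Helper62.EC.iso_alg (cls_at hC _) e.symm h,
    fun h => Pool.Agent.Helper62.EC.iso_alg (cls_at hC _) e h⟩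

end Pool.Agent.Helper67.SO
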