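import Pool.Graph.R_pool_sql_team_seeded_3997aac3.Q27.BG2.FibSep
import Pool.Agent.Helper67.SO.Hyp

/-!
# Schemes with fibres of bounded dimension and closed subschemes of affine spaces

The statements of `Pool.Agent.Q27.BG2` for properties which are only closed under decompositions.
-/

set_option autoImplicit false

namespace Pool.Agent.Helper67.SO

open MvPolynomial CategoryTheory AlgebraicGeometry TensorProduct NumberField
open Pool.Agent.Y116.UV Q54.CU Q54.ZE Pool.Agent.H920R2
open Pool.Agent.Q27.BG (exists_regular reg_aff fib_away)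
open Pool.Agent.Helper62.EC

section gen

variable {R : Type} [CommRing R] {sep : Prop} {P : Sch R → Prop} (hP : Cls sep P)

include hP

/-- locally closed subschemes of affine spaces -/
lemma c_emb {N : ℕ} (hA : ∀ I : Ideal (MvPolynomial (Fin N) R),
    P (aff R (MvPolynomial (Fin N) R ⧸ I))) {L : Type} [CommRing L] [Algebra R L]
    (φ : MvPolynomial (Fin N) R →ₐ[R] L) (g : MvPolynomial (Fin N) R) (hg : IsUnit (φ g))
    (hs : ∀ a, ∃ (m : ℕ) (p : MvPolynomial (Fin N) R), φ g ^ m * a = φ p) : P (aff R L) := by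
  let Q := MvPolynomial (Fin N) R ⧸ RingHom.ker φ
  let ψ : Q →ₐ[R] L := Ideal.kerLiftAlg φ
  have hψ : Function.Injective ψ := Ideal.kerLiftAlg_injective φ
  let gq : Q := Ideal.Quotient.mk _ g
  have h1 : P (aff R (Localization.Away gq)) :=
    ring_open hP gq (Pool.Agent.Helper62.EC.quot_mk hP _ _ (hA _)) (hA _)
  let _ : Algebra Q L := ψ.toRingHom.toAlgebra
  have hloc : IsLocalization.Away gq L := by
    have hgq : algebraMap Q L gq = φ g := rfl
    refine ⟨?_, ?_, ?_⟩
    · rintro ⟨_, n, rfl⟩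
      change IsUnit (algebraMap Q L (gq ^ n))
      rw [map_pow, hgq]
      exact hg.pow n
    · intro z
      obtain ⟨m, p, h⟩ := hs z
      refine ⟨(Ideal.Quotient.mk _ p, ⟨gq ^ m, m, rfl⟩), ?_⟩
      change z * algebraMap Q L (gq ^ m) = φ p
      rw [map_pow, hgq, ← h, mul_comm]
    · intro x y hxy
      refine ⟨1, ?_⟩
      rw [hψ hxy]
  let e : Localization.Away gq ≃ₐ[Q] L :=
    IsLocalization.algEquiv (Submonoid.powers gq) (Localization.Away gq) L
  let e2 : Localization.Away gq ≃ₐ[R] L := AlgEquiv.ofRingEquiv (f := e.toRingEquiv) (by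
    intro r
    change e (algebraMap R (Localization.Away gq) r) = _
    rw [IsScalarTower.algebraMap_apply R Q (Localization.Away gq), e.commutes]
    exact ψ.commutes r)
  have : Algebra.FiniteType R (Localization.Away gq) :=
    Algebra.FiniteType.trans (S := Q) inferInstance inferInstance
  exact iso_alg hP e2 h1

end gen

variable {sep : Prop} {P : Sch ℤ → Prop} (hP : Cls sep P)

include hP

/-- localization at `1` -/
lemma c_away_one (B : Type) [CommRing B] [Algebra ℤ B] [Algebra.FiniteType ℤ B]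
    (h : P (aff ℤ B)) : P (aff ℤ (Localization.Away (1 : B))) := by
  have e := IsLocalization.atUnits B (Submonoid.powers (1 : B)) (S := Localization.Away (1 : B))
    (by rintro _ ⟨n, rfl⟩; simp)
  exact iso_alg hP (e.restrictScalars ℤ) h

/-- isomorphic rings -/
lemma c_ringEquiv {B C : Type} [CommRing B] [Algebra ℤ B] [Algebra.FiniteType ℤ B] [CommRing C]
    [Algebra ℤ C] (e : B ≃+* C) (h : P (aff ℤ B)) : P (aff ℤ C) :=
  iso_alg hP (AlgEquiv.ofRingEquiv (f := e) (by
    intro r
    rw [eq_intCast, eq_intCast, map_intCast])) h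

/-- The polynomial ring over a prime field. -/
lemma c_poly_prime {n : ℕ} (p : ℕ) [Fact p.Prime]
    (h1 : P (aff ℤ (MvPolynomial (Fin (n + 1)) (ZMod p)))) {B : Type} [CommRing B]
    [Algebra ℤ B] (φ : MvPolynomial (Fin (n + 1)) ℤ →+* B) (hφ : Function.Surjective φ)
    (hp : (p : B) = 0) (hker : ∀ f, φ f = 0 → ∀ d, (p : ℤ) ∣ f.coeff d) : P (aff ℤ B) := by
  have : Algebra.FiniteType ℤ (ZMod p) :=
    Algebra.FiniteType.of_surjective (Algebra.ofId ℤ (ZMod p)) (ZMod.intCast_surjective)
  let θ : MvPolynomial (Fin (n + 1)) ℤ →+* MvPolynomial (Fin (n + 1)) (ZMod p) :=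
    map (Int.castRingHom (ZMod p))
  have hθ : Function.Surjective θ := map_surjective _ ZMod.intCast_surjective
  have hk : RingHom.ker θ = RingHom.ker φ := by
    ext f
    rw [RingHom.mem_ker, RingHom.mem_ker]
    constructor
    · intro hf
      have h2 : ∀ d, (p : ℤ) ∣ f.coeff d := by
        intro d
        have h3 := congrArg (MvPolynomial.coeff d) hf
        rw [coeff_map, coeff_zero] at h3
        exact (ZMod.intCast_zmod_eq_zero_iff_dvd _ _).1 h3
      obtain ⟨g, rfl⟩ := (C_dvd_iff_dvd_coeff (p : ℤ) f).2 h2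
      rw [map_mul]
      have h4 : φ (MvPolynomial.C (p : ℤ)) = 0 := by
        rw [show (MvPolynomial.C (p : ℤ) : MvPolynomial (Fin (n + 1)) ℤ) = (p : MvPolynomial _ ℤ) by
          simp, map_natCast, hp]
      rw [h4, zero_mul]
    · intro hf
      ext d
      rw [coeff_map, coeff_zero]
      exact (ZMod.intCast_zmod_eq_zero_iff_dvd _ _).2 (hker f hf d)
  have : Algebra.FiniteType ℤ (MvPolynomial (Fin (n + 1)) (ZMod p)) :=
    Algebra.FiniteType.trans (S := ZMod p) inferInstance inferInstance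
  exact c_ringEquiv hP (((RingHom.quotientKerEquivOfSurjective hθ).symm.trans
    (Ideal.quotEquivOfEq hk)).trans (RingHom.quotientKerEquivOfSurjective hφ)) h1

/-- from schemes with fibres of dimension at most `n` to closed subschemes of the affine space of
dimension `n + 1` -/
lemma c_fib_to_closed {n : ℕ} (hS : P (aff ℤ (MvPolynomial (Fin (n + 1)) ℤ)))
    (hF : ∀ (p : ℕ) [Fact p.Prime], P (aff ℤ (MvPolynomial (Fin (n + 1)) (ZMod p))))
    (h : ∀ X : Sch ℤ, FT sep X → FibLE n (X := X.left) X.hom → P X)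
    (I : Ideal (MvPolynomial (Fin (n + 1)) ℤ)) :
    P (aff ℤ (MvPolynomial (Fin (n + 1)) ℤ ⧸ I)) := by
  -- rings
  have hR : ∀ (C : Type) [CommRing C] [Algebra.FiniteType ℤ C],
      (∀ (K : Type) [Field K], ringKrullDim (C ⊗[ℤ] K) ≤ n) →
      ∀ inst : Algebra ℤ C, P (@aff ℤ C _ _ inst) := by
    intro C _ _ hC inst
    obtain rfl : inst = Ring.toIntAlgebra C := Subsingleton.elim _ _
    exact h _ (ft_aff sep) ((fib_affine C).2 hC)
  have hfin : ∀ (C : Type) [CommRing C] (inst : Algebra ℤ C),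
      @Algebra.FiniteType ℤ C _ _ inst → @Algebra.FiniteType ℤ C _ _ (Ring.toIntAlgebra C) := by
    intro C _ inst hC
    rwa [Subsingleton.elim (Ring.toIntAlgebra C) inst]
  refine Pool.Agent.Helper62.EC.noeth hP
    (fun B _ _ hB => Pool.Agent.Helper62.EC.p_empty hP hS B hB) fun p hp => ?_
  let A := MvPolynomial (Fin (n + 1)) ℤ ⧸ I
  let B := A ⧸ p
  let φ : MvPolynomial (Fin (n + 1)) ℤ →+* B := (Ideal.Quotient.mk p).comp (Ideal.Quotient.mk I)
  have hφ : Function.Surjective φ :=
    Ideal.Quotient.mk_surjective.comp Ideal.Quotient.mk_surjective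
  have hBft : @Algebra.FiniteType ℤ B _ _ (Ring.toIntAlgebra B) := hfin B _ inferInstance
  by_cases hker : ∃ f, φ f = 0 ∧ f ≠ 0
  · obtain ⟨f, hf, hf0⟩ := hker
    obtain ⟨d, hd⟩ := MvPolynomial.ne_zero_iff.1 hf0
    by_cases hm : ((f.coeff d : ℤ) : B) = 0
    · obtain ⟨q, hq⟩ := CharP.exists B
      have hq0 : q ≠ 0 := by
        rintro rfl
        have : CharZero B := CharP.charP_to_charZero B
        exact hd (Int.cast_eq_zero.1 hm)
      have hqp : Fact q.Prime := ⟨(CharP.char_is_prime_or_zero B q).resolve_right hq0⟩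
      refine ⟨1, one_ne_zero, c_away_one hP B ?_⟩
      by_cases hall : ∀ f, φ f = 0 → ∀ d, (q : ℤ) ∣ f.coeff d
      · exact c_poly_prime hP q (hF q) φ hφ (CharP.cast_eq_zero B q) hall
      · push Not at hall
        obtain ⟨g, hg, d, hgd⟩ := hall
        have hcop : IsCoprime (g.coeff d) (q : ℤ) :=
          ((Nat.prime_iff_prime_int.1 hqp.1).irreducible.coprime_iff_not_dvd.2 hgd).symm
        obtain ⟨u, v, huv⟩ := hcop
        refine hR B (fun K _ => dim_fib φ 1 (by simp) (fun c => ?_)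
          (MvPolynomial.C u * g + MvPolynomial.C v * monomial d (q : ℤ)) ?_ d ?_ K) _
        · obtain ⟨a, rfl⟩ := hφ c
          exact ⟨0, a, by simp⟩
        · have h4 : φ (monomial d (q : ℤ)) = 0 := by
            have h5 : (monomial d (q : ℤ) : MvPolynomial (Fin (n + 1)) ℤ) =
                (q : MvPolynomial (Fin (n + 1)) ℤ) * monomial d 1 := by
              rw [← nsmul_eq_mul, ← map_nsmul]
              simp
            rw [h5, map_mul, map_natCast, CharP.cast_eq_zero, zero_mul]
          rw [map_add, map_mul, map_mul, hg, h4, mul_zero, mul_zero, add_zero]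
        · rw [coeff_add, coeff_C_mul, coeff_C_mul, coeff_monomial, if_pos rfl]
          exact huv
    · refine ⟨((f.coeff d : ℤ) : B), hm, ?_⟩
      let L := Localization.Away (((f.coeff d : ℤ) : B))
      have hu : IsUnit (algebraMap B L ((f.coeff d : ℤ) : B)) :=
        IsLocalization.Away.algebraMap_isUnit _
      rw [map_intCast] at hu
      have hLft : @Algebra.FiniteType ℤ L _ _ (Ring.toIntAlgebra L) :=
        hfin L _ (Algebra.FiniteType.trans (S := B) inferInstance inferInstance)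
      refine hR L (fun K _ => dim_fib ((algebraMap B L).comp φ) (f.coeff d) hu (fun c => ?_) f
        (by rw [RingHom.comp_apply, hf, map_zero]) d rfl K) _
      obtain ⟨⟨b, ⟨_, j, rfl⟩⟩, hb⟩ := IsLocalization.surj
        (Submonoid.powers (((f.coeff d : ℤ) : B))) c
      obtain ⟨a, rfl⟩ := hφ b
      refine ⟨j, a, ?_⟩
      rw [RingHom.comp_apply, ← hb, mul_comm]
      congr 1
      change ((f.coeff d : ℤ) : L) ^ j = algebraMap B L (((f.coeff d : ℤ) : B) ^ j)
      rw [map_pow, map_intCast]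
  · push Not at hker
    refine ⟨1, one_ne_zero, c_away_one hP B ?_⟩
    have hinj : Function.Injective φ := by
      rw [injective_iff_map_eq_zero]
      exact hker
    have : Algebra.FiniteType ℤ (MvPolynomial (Fin (n + 1)) ℤ) := inferInstance
    exact c_ringEquiv hP (RingEquiv.ofBijective φ ⟨hinj, hφ⟩) hS

/-- Open parts of domains. -/
lemma c_domain_step {n : ℕ} (h : ∀ I : Ideal (MvPolynomial (Fin (n + 1)) ℤ),
    P (aff ℤ (MvPolynomial (Fin (n + 1)) ℤ ⧸ I))) (B : Type) [CommRing B] [IsDomain B]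
    [Algebra.FiniteType ℤ B] (hd : ∀ (K : Type) [Field K], ringKrullDim (B ⊗[ℤ] K) ≤ n) :
    ∃ w : B, w ≠ 0 ∧ P (aff ℤ (Localization.Away w)) := by
  obtain ⟨x, hx⟩ := exists_coords B hd
  obtain ⟨w, hw, φ, g, h1, h2⟩ := exists_emb' x (R := ℤ) (B := B) (fun y => by
    obtain ⟨P, Q, h3, h4⟩ := hx y
    refine ⟨P, Q, ?_, ?_⟩
    · rwa [aeval_int_eq _ (Ring.toIntAlgebra _)] at h3 ⊢
    · rwa [aeval_int_eq _ (Ring.toIntAlgebra _), aeval_int_eq _ (Ring.toIntAlgebra _) x P] at h4 ⊢)
  exact ⟨w, hw, c_emb hP h φ g h1 h2⟩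

/-- from closed subschemes of the affine space of dimension `n + 1` to schemes with fibres of
dimension at most `n` -/
lemma c_closed_to_fib {n : ℕ} (h : ∀ I : Ideal (MvPolynomial (Fin (n + 1)) ℤ),
    P (aff ℤ (MvPolynomial (Fin (n + 1)) ℤ ⧸ I))) (A : Type) [CommRing A] [inst : Algebra ℤ A]
    [Algebra.FiniteType ℤ A]
    (hA : FibLE n (Spec.map (CommRingCat.ofHom (algebraMap ℤ A)))) : P (aff ℤ A) := by
  obtain rfl : inst = Ring.toIntAlgebra A := Subsingleton.elim _ _
  rw [fib_affine] at hA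
  refine Pool.Agent.Helper62.EC.noeth hP
    (fun B _ _ hB => Pool.Agent.Helper62.EC.p_empty hP (h ⊥) B hB) fun p hp => ?_
  have hBft : @Algebra.FiniteType ℤ (A ⧸ p) _ _ (Ring.toIntAlgebra (A ⧸ p)) :=
    Algebra.FiniteType.of_surjective (Ideal.Quotient.mk p).toIntAlgHom Ideal.Quotient.mk_surjective
  obtain ⟨w, hw, h1⟩ := c_domain_step hP h (A ⧸ p) fun K _ =>
    (dim_surj (Ideal.Quotient.mk p) Ideal.Quotient.mk_surjective K).trans (hA K)
  exact ⟨w, hw, p_inst (P := P) _ _ h1⟩

/-- From affine schemes to all schemes with fibres of dimension at most `n`. -/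
lemma c_fib_of_affine {n : ℕ} (h : ∀ (A : Type) [CommRing A] [Algebra ℤ A] [Algebra.FiniteType ℤ A],
      FibLE n (Spec.map (CommRingCat.ofHom (algebraMap ℤ A))) → P (aff ℤ A)) (X : Sch ℤ)
    (hX : FT sep X) (hn : FibLE n (X := X.left) X.hom) : P X := by
  refine of_affine' (P := fun X => FibLE n (X := X.left) X.hom → P X) (sep := sep) ?_ ?_ ?_ X
    hX hn
  · intro X Y hX e hPX hY
    refine hP.iso hX e (hPX ?_)
    obtain ⟨e⟩ := e
    have h1 : X.hom = e.hom.left ≫ Y.hom := (Over.w e.hom).symm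
    rw [h1]
    have : IsIso e.hom.left := inferInstanceAs (IsIso ((Over.forget _).map e.hom))
    exact FibLE.comp_open hY e.hom.left
  · intro Z X U i j hX ht hZ hU hn
    refine hP.total i j hX ht (hZ ?_) (hU ?_)
    · have h1 : Z.hom = i.left ≫ X.hom := (Over.w i).symm
      rw [h1]
      have := ht.closed
      exact FibLE.comp_closed hn i.left
    · have h1 : U.hom = j.left ≫ X.hom := (Over.w j).symm
      rw [h1]
      have := ht.opened
      exact FibLE.comp_open hn j.left
  · intro A _ _ _ hA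
    exact h A hA

/-- From regular schemes to all affine schemes. -/
lemma c_fib_regular {n : ℕ} (hS : P (aff ℤ ℤ))
    (h : ∀ X : Sch ℤ, FT sep X → IsRegularSch X.left → FibLE n (X := X.left) X.hom → P X)
    (A : Type) [CommRing A] [inst : Algebra ℤ A]
    (hA : FibLE n (Spec.map (CommRingCat.ofHom (algebraMap ℤ A)))) [Algebra.FiniteType ℤ A] :
    P (aff ℤ A) := by
  obtain rfl : inst = Ring.toIntAlgebra A := Subsingleton.elim _ _
  refine Pool.Agent.Helper62.EC.noeth hP
    (fun B _ _ hB => Pool.Agent.Helper62.EC.p_empty hP hS B hB) fun p hp => ?_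
  have hBft : @Algebra.FiniteType ℤ (A ⧸ p) _ _ (Ring.toIntAlgebra (A ⧸ p)) :=
    Algebra.FiniteType.of_surjective (Ideal.Quotient.mk p).toIntAlgHom Ideal.Quotient.mk_surjective
  obtain ⟨w, hw, h1⟩ := exists_regular (A ⧸ p)
  have h2 : FibLE n (Spec.map (CommRingCat.ofHom (@algebraMap ℤ (A ⧸ p) _ _
      (Ring.toIntAlgebra (A ⧸ p))))) := by
    rw [fib_affine] at hA ⊢
    exact fun K _ => (dim_surj (Ideal.Quotient.mk p) Ideal.Quotient.mk_surjective K).trans (hA K)
  refine ⟨w, hw, h _ (ft_aff sep) (reg_aff h1) (fib_away w h2 _)⟩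

/-- **Schemes with fibres of dimension at most `d` and hypersurfaces in the affine space of dimension
`d + 1`.** -/
theorem fib_hyp (d : ℕ) (hS : P (aff ℤ (MvPolynomial (Fin (d + 1)) ℤ))) (hZ : P (aff ℤ ℤ))
    (hF : ∀ (p : ℕ) [Fact p.Prime], P (aff ℤ (MvPolynomial (Fin (d + 1)) (ZMod p)))) : List.TFAE
    [∀ X : Sch ℤ, FT sep X → IsRegularSch X.left → FibLE d (X := X.left) X.hom → P X,
      ∀ X : Sch ℤ, FT sep X → FibLE d (X := X.left) X.hom → P X,
      ∀ F : MvPolynomial (Fin (d + 1)) ℤ,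
        P (aff ℤ (MvPolynomial (Fin (d + 1)) ℤ ⧸ Ideal.span {F}))] := by
  tfae_have 1 → 2 := fun h => c_fib_of_affine hP (fun A _ _ _ hA => c_fib_regular hP hZ h A hA)
  tfae_have 2 → 1 := fun h X hX _ hn => h X hX hn
  tfae_have 2 → 3 := fun h F => c_fib_to_closed hP hS hF h _
  tfae_have 3 → 2 := fun h =>
    c_fib_of_affine hP (fun A _ _ _ hA => c_closed_to_fib hP (fun I => of_hyp hP h I) A hA)
  tfae_finish

end Pool.Agent.Helper67.SO
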